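import Pool.Agent.Helper227.EN.Lang
import Mathlib.ModelTheory.Definability
import Mathlib.ModelTheory.ElementaryMaps

/-!
Strongly CP-generic subsets of models of Peano arithmetic: definitions.
-/

set_option autoImplicit false

open FirstOrder FirstOrder.Language Pool.Agent.Helper227.EN

namespace Pool.Agent.V11253.CPG

/-- relation symbols of the language of arithmetic expanded by one unary predicate symbol -/
inductive UR : ℕ → Type
  | lt : UR 2
  | U : UR 1

/-- the language of arithmetic `{0, 1, +, ·, <}` expanded by one unary predicate symbol `U` -/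
def LU : FirstOrder.Language.{0, 0} := ⟨AF, UR⟩

/-- the expansion `(M, X)` of the model `M`: the symbol `U` is interpreted by `X` -/
@[reducible] def expand (M : Type) [LA.Structure M] (X : Set M) : LU.Structure M where
  funMap := fun {_} f v => Structure.funMap (L := LA) f v
  RelMap := fun {n} r => match n, r with
    | _, UR.lt => fun v => Structure.RelMap (L := LA) AR.lt v
    | _, UR.U => fun v => v 0 ∈ X

/-- spread sets of `n`-tuples -/
def Spread {M : Type} {n : ℕ} (B : Set (Fin n → M)) : Prop :=
  B.Infinite ∧ (∀ b ∈ B, Function.Injective b) ∧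
    ∀ b ∈ B, ∀ c ∈ B, b ≠ c → ∀ i j : Fin n, b i ≠ c j

/-- `X` is strongly CP-generic in the model `M` (definable: with parameters from `M`, in the
language of arithmetic) -/
def StronglyCPGeneric (M : Type) [LA.Structure M] (X : Set M) : Prop :=
  ∀ n : ℕ, 1 ≤ n → ∀ D : Set (Fin n → M), (Set.univ : Set M).Definable LA D →
    (∃ B ⊆ D, Spread B) → ∀ I : Set (Fin n), ∃ b ∈ D, ∀ i : Fin n, b i ∈ X ↔ i ∈ I

end Pool.Agent.V11253.CPG
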