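import Pool.Agent.V11253.CPG.Key2
import Mathlib.Order.Ideal

set_option autoImplicit false
set_option linter.unusedSectionVars false

open FirstOrder FirstOrder.Language Pool.Agent.Helper227.EN Pool.Agent.H623R3.JC

namespace Pool.Agent.V11253.CPG

/-- finite conditions: `P` is put into the set, `Q` is kept out of it (and `Q` avoids `C0`) -/
structure Cnd (M : Type) (C0 : Set M) where
  P : Finset M
  Q : Finset M
  disj : ∀ x ∈ P, x ∉ Q
  av : ∀ x ∈ Q, x ∉ C0

instance (M : Type) (C0 : Set M) : Preorder (Cnd M C0) where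
  le p q := p.P ⊆ q.P ∧ p.Q ⊆ q.Q
  le_refl p := ⟨subset_rfl, subset_rfl⟩
  le_trans p q r h1 h2 := ⟨h1.1.trans h2.1, h1.2.trans h2.2⟩

theorem countable_formula {M : Type} [Countable M] (n : ℕ) :
    Countable (LA.Formula ((Set.univ : Set M) ⊕ Fin n)) := by
  have h1 : Countable (Σ l, LA.Functions l) := by
    let f : (Σ l, AF l) → ℕ := fun s => match s with
      | ⟨_, AF.zero⟩ => 0
      | ⟨_, AF.one⟩ => 1
      | ⟨_, AF.add⟩ => 2
      | ⟨_, AF.mul⟩ => 3
    have hf : Function.Injective f := by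
      rintro ⟨_, a⟩ ⟨_, b⟩ h
      cases a <;> cases b <;> first | rfl | (simp [f] at h)
    exact hf.countable
  have h2 : Countable (Σ l, LA.Relations l) := by
    have hf : Function.Injective (fun _ : (Σ l, AR l) => 0) := by
      rintro ⟨_, a⟩ ⟨_, b⟩ _
      cases a <;> cases b <;> rfl
    exact hf.countable
  have h3 : Countable LA.Symbols := by
    unfold Language.Symbols
    infer_instance
  infer_instance

theorem countable_def {M : Type} [Countable M] [LA.Structure M] (n : ℕ) :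
    Countable {D : Set (Fin n → M) // (Set.univ : Set M).Definable LA D} := by
  have := countable_formula (M := M) n
  have : Function.Surjective (fun φ : LA.Formula ((Set.univ : Set M) ⊕ Fin n) =>
      (⟨{v | φ.Realize (Sum.elim (↑) v)}, Set.definable_iff_exists_formula_sum.2 ⟨φ, rfl⟩⟩ :
        {D : Set (Fin n → M) // (Set.univ : Set M).Definable LA D})) := by
    rintro ⟨D, hD⟩
    obtain ⟨φ, hφ⟩ := Set.definable_iff_exists_formula_sum.1 hD
    exact ⟨φ, Subtype.ext hφ.symm⟩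
  exact this.countable

/-- the generic set -/
theorem generic {M : Type} [Countable M] [LA.Structure M] (C0 : Set M)
    (key : ∀ (n : ℕ) (D : Set (Fin n → M)), (Set.univ : Set M).Definable LA D →
      (∃ B ⊆ D, Spread B) → ∀ F : Set M, F.Finite →
      ∃ τ ∈ D, Function.Injective τ ∧ ∀ l, τ l ∉ C0 ∧ τ l ∉ F)
    {κ : Type} [Countable κ] (W : κ → Set M) (hW : ∀ k, (W k \ C0).Infinite) :
    ∃ X : Set M, C0 ⊆ X ∧ StronglyCPGeneric M X ∧ ∀ k, ∃ z ∈ W k, z ∉ X := by
  classical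
  let ι : Type := (Σ n : ℕ, {D : Set (Fin n → M) // (Set.univ : Set M).Definable LA D} ×
    Set (Fin n)) ⊕ κ
  have hc : ∀ n, Countable {D : Set (Fin n → M) // (Set.univ : Set M).Definable LA D} :=
    fun n => countable_def n
  have : Countable ι := inferInstance
  have : Encodable ι := Encodable.ofCountable ι
  have hd1 : ∀ (n : ℕ) (D : Set (Fin n → M)) (I : Set (Fin n)), ∀ p : Cnd M C0,
      ∃ q, ((Set.univ : Set M).Definable LA D → (∃ B ⊆ D, Spread B) →
        ∃ τ ∈ D, ∀ l, (l ∈ I → τ l ∈ q.P) ∧ (l ∉ I → τ l ∈ q.Q)) ∧ p ≤ q := by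
    intro n D I p
    by_cases h : (Set.univ : Set M).Definable LA D ∧ ∃ B ⊆ D, Spread B
    · obtain ⟨τ, h1, h2, h3⟩ := key n D h.1 h.2 (↑(p.P ∪ p.Q)) (Finset.finite_toSet _)
      refine ⟨⟨p.P ∪ (Finset.univ.filter (· ∈ I)).image τ,
        p.Q ∪ (Finset.univ.filter (· ∉ I)).image τ, ?_, ?_⟩, fun _ _ => ⟨τ, h1, fun l => ⟨?_, ?_⟩⟩,
        Finset.subset_union_left, Finset.subset_union_left⟩
      · intro x hx hx2
        rcases Finset.mem_union.1 hx with h4 | h4 <;> rcases Finset.mem_union.1 hx2 with h5 | h5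
        · exact p.disj x h4 h5
        · obtain ⟨l, hl, rfl⟩ := Finset.mem_image.1 h5
          exact (h3 l).2 (by simp [h4])
        · obtain ⟨l, hl, rfl⟩ := Finset.mem_image.1 h4
          exact (h3 l).2 (by simp [h5])
        · obtain ⟨l, hl, rfl⟩ := Finset.mem_image.1 h4
          obtain ⟨l', hl', h6⟩ := Finset.mem_image.1 h5
          rw [h2 h6] at hl'
          simp at hl hl'
          exact hl' hl
      · intro x hx
        rcases Finset.mem_union.1 hx with h4 | h4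
        · exact p.av x h4
        · obtain ⟨l, hl, rfl⟩ := Finset.mem_image.1 h4
          exact (h3 l).1
      · intro hl
        exact Finset.mem_union_right _ (Finset.mem_image.2 ⟨l, by simp [hl], rfl⟩)
      · intro hl
        exact Finset.mem_union_right _ (Finset.mem_image.2 ⟨l, by simp [hl], rfl⟩)
    · exact ⟨p, fun h1 h2 => absurd ⟨h1, h2⟩ h, le_refl p⟩
  have hd2 : ∀ (k : κ), ∀ p : Cnd M C0, ∃ q : Cnd M C0, (∃ z ∈ W k, z ∈ q.Q) ∧ p ≤ q := by
    intro k p
    obtain ⟨z, h1, h2⟩ := (hW k).exists_notMem_finset p.P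
    refine ⟨⟨p.P, insert z p.Q, ?_, ?_⟩, ⟨z, h1.1, Finset.mem_insert_self _ _⟩, subset_rfl,
      Finset.subset_insert _ _⟩
    · intro x hx hx2
      rcases Finset.mem_insert.1 hx2 with rfl | h
      · exact h2 hx
      · exact p.disj x hx h
    · intro x hx
      rcases Finset.mem_insert.1 hx with rfl | h
      · exact h1.2
      · exact p.av x h
  let 𝒟 : ι → Order.Cofinal (Cnd M C0) := fun s => match s with
    | Sum.inl ⟨n, D, I⟩ => ⟨{q | (Set.univ : Set M).Definable LA D.1 → (∃ B ⊆ D.1, Spread B) →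
        ∃ τ ∈ D.1, ∀ l, (l ∈ I → τ l ∈ q.P) ∧ (l ∉ I → τ l ∈ q.Q)}, fun p => hd1 n D.1 I p⟩
    | Sum.inr k => ⟨{q | ∃ z ∈ W k, z ∈ q.Q}, fun p => hd2 k p⟩
  let p0 : Cnd M C0 := ⟨∅, ∅, by simp, by simp⟩
  let J := Order.idealOfCofinals p0 𝒟
  have hJ := fun s => Order.cofinal_meets_idealOfCofinals p0 𝒟 s
  let X : Set M := C0 ∪ {x | ∃ p ∈ J, x ∈ p.P}
  have hX : ∀ q ∈ J, ∀ x ∈ q.Q, x ∉ X := by
    rintro q hq x hx (h | ⟨p, hp, h⟩)
    · exact q.av x hx h
    · obtain ⟨r, hr, h1, h2⟩ := J.directed p hp q hq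
      exact r.disj x (h1.1 h) (h2.2 hx)
  refine ⟨X, Set.subset_union_left, ?_, ?_⟩
  · intro n _ D hD hB I
    obtain ⟨q, h1, h2⟩ := hJ (Sum.inl ⟨n, ⟨D, hD⟩, I⟩)
    obtain ⟨τ, h3, h4⟩ := h1 hD hB
    refine ⟨τ, h3, fun l => ⟨fun h => ?_, fun h => Or.inr ⟨q, h2, (h4 l).1 h⟩⟩⟩
    by_contra hl
    exact hX q h2 _ ((h4 l).2 hl) h
  · intro k
    obtain ⟨q, ⟨z, h1, h3⟩, h2⟩ := hJ (Sum.inr k)
    exact ⟨z, h1, hX q h2 z h3⟩

end Pool.Agent.V11253.CPG
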