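import Pool.Agent.V11253.CPG.Defs
import Pool.Agent.H623R3.JC.P_IND
import Pool.Agent.H623R3.JC.P_OVER
import Pool.Agent.Helper227.EN.Alg
import Pool.Agent.Helper227.ENJ.P_dfn_all
import Pool.Agent.Helper227.ENJ.P_dfn_subst
import Pool.Agent.Helper227.ENJ.P_trm_ops
import Pool.Agent.Helper227.ENJ.P_std_below

set_option autoImplicit false

open FirstOrder FirstOrder.Language Pool.Agent.Helper227.EN Pool.Agent.H623R3.JC

namespace Pool.Agent.V11253.CPG

section conv
variable {M : Type} [LA.Structure M]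

theorem dfn_def {α : Type} (R : (ℕ → M) → Prop) (h : Dfn R) (g : ℕ → M ⊕ α) :
    (Set.univ : Set M).Definable LA {v : α → M | R (fun k => Sum.elim id v (g k))} := by
  obtain ⟨φ, hφ⟩ := h
  rw [Set.definable_iff_exists_formula_sum]
  let g' : ℕ → (Set.univ : Set M) ⊕ α := fun k => Sum.map (fun a => ⟨a, trivial⟩) id (g k)
  refine ⟨φ.relabel g', ?_⟩
  ext v
  simp only [Set.mem_setOf_eq, Formula.realize_relabel]
  rw [← hφ]
  have : (fun k => Sum.elim id v (g k)) =
      (Sum.elim (fun x : (Set.univ : Set M) => (x : M)) v) ∘ g' := by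
    funext k
    simp only [Function.comp_apply, g']
    cases g k <;> rfl
  rw [this]

theorem def_dfn [Countable M] [Nonempty M] (Q : Set M)
    (h : (Set.univ : Set M).Definable₁ LA Q) :
    ∃ (R : (ℕ → M) → Prop) (p : ℕ → M), Dfn R ∧ ∀ m : M, R (Function.update p 0 m) ↔ m ∈ Q := by
  classical
  unfold Set.Definable₁ at h
  rw [Set.definable_iff_exists_formula_sum] at h
  obtain ⟨φ, hφ⟩ := h
  obtain ⟨e, he⟩ := exists_injective_nat (Set.univ : Set M)
  let g : (Set.univ : Set M) ⊕ Fin 1 → ℕ := Sum.elim (fun a => e a + 1) (fun _ => 0)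
  let p : ℕ → M := fun k => if h : ∃ a, e a + 1 = k then (h.choose : M) else Classical.arbitrary M
  refine ⟨fun x => (φ.relabel g).Realize x, p, ⟨φ.relabel g, fun x => Iff.rfl⟩, fun m => ?_⟩
  have h1 : (fun _ : Fin 1 => m) ∈ {x : Fin 1 → M | x 0 ∈ Q} ↔ m ∈ Q := Iff.rfl
  rw [← h1, hφ]
  simp only [Set.mem_setOf_eq, Formula.realize_relabel]
  have : (Function.update p 0 m) ∘ g = Sum.elim (fun x : (Set.univ : Set M) => (x : M))
      (fun _ : Fin 1 => m) := by
    funext k
    rcases k with a | b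
    · simp only [Function.comp_apply, Sum.elim_inl, g]
      rw [Function.update_of_ne (Nat.succ_ne_zero _)]
      have hex : ∃ a', e a' + 1 = e a + 1 := ⟨a, rfl⟩
      simp only [p, dif_pos hex]
      have := hex.choose_spec
      have h2 : hex.choose = a := he (by omega)
      rw [h2]
    · simp [g]
  rw [this]

theorem def_coord {n : ℕ} (Q : Set M) (h : (Set.univ : Set M).Definable₁ LA Q) (l : Fin n) :
    (Set.univ : Set M).Definable LA {v : Fin n → M | v l ∈ Q} := by
  have := Set.Definable.preimage_comp (fun _ : Fin 1 => l) h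
  exact this

theorem def_finite (F : Set M) (hF : F.Finite) : (Set.univ : Set M).Definable₁ LA F := by
  have := Set.definable_biUnion_finset (L := LA) (A := (Set.univ : Set M))
    (f := fun a : M => {x : Fin 1 → M | x 0 ∈ ({a} : Set M)})
    (fun a => Set.Definable.singleton_of_mem LA (Set.mem_univ a)) hF.toFinset
  unfold Set.Definable₁
  convert this using 1
  ext x
  simp

theorem def_eq {n : ℕ} (i j : Fin n) :
    (Set.univ : Set M).Definable LA {v : Fin n → M | v i = v j} :=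
  Set.Definable.preimage_comp (fun k : Fin 2 => if k = 0 then i else j)
    (Set.Definable.diagonal LA (Set.univ : Set M))

theorem def_inj {n : ℕ} :
    (Set.univ : Set M).Definable LA {v : Fin n → M | Function.Injective v} := by
  have h1 : ∀ p : Fin n × Fin n, (Set.univ : Set M).Definable LA
      {v : Fin n → M | v p.1 = v p.2 → p.1 = p.2} := by
    intro p
    by_cases h : p.1 = p.2
    · have : {v : Fin n → M | v p.1 = v p.2 → p.1 = p.2} = Set.univ := by
        ext v; simp [h]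
      rw [this]
      exact Set.definable_univ
    · have : {v : Fin n → M | v p.1 = v p.2 → p.1 = p.2} = {v : Fin n → M | v p.1 = v p.2}ᶜ := by
        ext v; simp [h]
      rw [this]
      exact (def_eq _ _).compl
  have h2 := Set.definable_iInter_of_finite h1
  convert h2 using 1
  ext v
  simp only [Set.mem_setOf_eq, Set.mem_iInter, Prod.forall]
  exact ⟨fun h i j hij => h hij, fun h i j hij => h i j hij⟩

end conv

section spread
variable {M : Type} {n : ℕ}

theorem spread_avoid (B : Set (Fin n → M)) (hB : Spread B) (F : Set M) (hF : F.Finite) :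
    Spread {τ ∈ B | ∀ l, τ l ∉ F} := by
  classical
  refine ⟨?_, fun b hb => hB.2.1 b hb.1, fun b hb c hc => hB.2.2 b hb.1 c hc.1⟩
  have hfin : {τ ∈ B | ∃ l, τ l ∈ F}.Finite := by
    have hsub : {τ ∈ B | ∃ l, τ l ∈ F} ⊆ ⋃ l : Fin n, ⋃ a ∈ F, {τ ∈ B | τ l = a} := by
      rintro τ ⟨h1, l, h2⟩
      simp only [Set.mem_iUnion]
      exact ⟨l, τ l, h2, h1, rfl⟩
    refine Set.Finite.subset ?_ hsub
    refine Set.finite_iUnion fun l => Set.Finite.biUnion hF fun a _ => ?_
    refine Set.Subsingleton.finite ?_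
    rintro τ ⟨h1, h2⟩ σ ⟨h3, h4⟩
    by_contra hne
    exact hB.2.2 τ h1 σ h3 hne l l (h2.trans h4.symm)
  have : B = {τ ∈ B | ∀ l, τ l ∉ F} ∪ {τ ∈ B | ∃ l, τ l ∈ F} := by
    ext τ
    simp only [Set.mem_union, Set.mem_setOf_eq]
    constructor
    · intro h
      by_cases h2 : ∃ l, τ l ∈ F
      · exact Or.inr ⟨h, h2⟩
      · exact Or.inl ⟨h, fun l hl => h2 ⟨l, hl⟩⟩
    · rintro (h | h) <;> exact h.1
  intro hinf
  exact hB.1 (this ▸ hinf.union hfin)

theorem spread_mono (B B' : Set (Fin n → M)) (hB : Spread B) (h : B' ⊆ B) (hi : B'.Infinite) :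
    Spread B' :=
  ⟨hi, fun b hb => hB.2.1 b (h hb), fun b hb c hc => hB.2.2 b (h hb) c (h hc)⟩

end spread

section arith
variable {M : Type} [CommSemiring M] [LinearOrder M] [IsStrictOrderedRing M]
  [CanonicallyOrderedAdd M] [LA.Structure M]

/-- a pairing function -/
def pr (x y : M) : M := (x + y) * (x + y) + x

/-- triples -/
def tr (i x j : M) : M := pr (pr i j) x

theorem succ_le (hc : Compat M) {x y : M} (h : x < y) : x + 1 ≤ y := by
  obtain ⟨z, hz⟩ := exists_add_of_le h.le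
  rw [hz]
  have : z ≠ 0 := by
    rintro rfl
    simp at hz
    exact absurd hz h.ne'
  have h2 : ¬ z < 1 := fun h3 => this (hc.disc z h3)
  exact add_le_add_right (not_lt.1 h2) x

theorem pr_inj (hc : Compat M) {x y x' y' : M} (h : pr x y = pr x' y') : x = x' ∧ y = y' := by
  unfold pr at h
  have key : ∀ x y x' y' : M, x + y < x' + y' → (x + y) * (x + y) + x < (x' + y') * (x' + y') + x' := by
    intro x y x' y' hlt
    have h1 := succ_le hc hlt
    calc (x + y) * (x + y) + x ≤ (x + y) * (x + y) + (x + y) :=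
          add_le_add_right (self_le_add_right x y) _
      _ ≤ (x + y) * (x + y) + (x + y) + (x + y) := self_le_add_right _ _
      _ < (x + y) * (x + y) + (x + y) + (x + y) + 1 := lt_add_of_pos_right _ zero_lt_one
      _ = (x + y + 1) * (x + y + 1) := by ring
      _ ≤ (x' + y') * (x' + y') := mul_le_mul' h1 h1
      _ ≤ _ := self_le_add_right _ _
  rcases lt_trichotomy (x + y) (x' + y') with h1 | h1 | h1
  · exact absurd h (key _ _ _ _ h1).ne
  · rw [h1] at h
    have h2 : x = x' := add_left_cancel h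
    subst h2
    exact ⟨rfl, add_left_cancel h1⟩
  · exact absurd h (key _ _ _ _ h1).ne'

theorem tr_inj (hc : Compat M) {i x j i' x' j' : M} (h : tr i x j = tr i' x' j') :
    i = i' ∧ x = x' ∧ j = j' := by
  obtain ⟨h1, h2⟩ := pr_inj hc h
  obtain ⟨h3, h4⟩ := pr_inj hc h1
  exact ⟨h3, h2, h4⟩

/-- codes of triples with the first and the last entry at most `m` -/
def G (m z : M) : Prop := ∃ i, ∃ j, ∃ x, i ≤ m ∧ j ≤ m ∧ z = tr i x j

theorem dfn_G (hc : Compat M) : Dfn (fun x : ℕ → M => G (x 0) (x 1)) := by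
  obtain ⟨h1, h2, h3, h4, h5, h6, h7⟩ := trm_ops (M := M) hc
  obtain ⟨b1, b2, b3, b4, b5, b6⟩ := dfn_bool (M := M)
  have T : ∀ k, Trm (fun x : ℕ → M => x k) := h1
  unfold G tr pr
  refine dfn_ex (fun x i => ∃ j, ∃ y, i ≤ x 0 ∧ j ≤ x 0 ∧ _) 2 (fun x y v => by simp) ?_
  refine dfn_ex (fun x j => ∃ y, x 2 ≤ x 0 ∧ j ≤ x 0 ∧ _) 3 (fun x y v => by simp) ?_
  refine dfn_ex (fun x y => x 2 ≤ x 0 ∧ x 3 ≤ x 0 ∧ _) 4 (fun x y v => by simp) ?_
  refine b3 _ _ (h7 _ _ (T 2) (T 0)) (b3 _ _ (h7 _ _ (T 3) (T 0)) (h5 _ _ (T 1) ?_))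
  have e1 : Trm (fun x : ℕ → M => (x 2 + x 3) * (x 2 + x 3) + x 2) :=
    h3 _ _ (h4 _ _ (h3 _ _ (T 2) (T 3)) (h3 _ _ (T 2) (T 3))) (T 2)
  exact h3 _ _ (h4 _ _ (h3 _ _ e1 (T 4)) (h3 _ _ e1 (T 4))) e1

end arith

end Pool.Agent.V11253.CPG
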