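import Pool.Agent.V11253.CPG.Key

set_option autoImplicit false
set_option linter.unusedSectionVars false

open FirstOrder FirstOrder.Language Pool.Agent.Helper227.EN Pool.Agent.H623R3.JC

namespace Pool.Agent.V11253.CPG

variable {M : Type} [CommSemiring M] [LinearOrder M] [IsStrictOrderedRing M]
  [CanonicallyOrderedAdd M] [LA.Structure M]

theorem under [Countable M] (hM : NPA M) (Q : Set M) (hQ : (Set.univ : Set M).Definable₁ LA Q)
    (h : ∀ m : M, (∀ n : ℕ, (n : M) < m) → m ∈ Q) : ∃ n : ℕ, (n : M) ∈ Q := by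
  by_contra hcon
  push Not at hcon
  obtain ⟨R, p, hR, hp⟩ := def_dfn Q hQ
  obtain ⟨N, hN, hN2⟩ := prf_over prf_ind M hM (fun x => ¬ R x) (dfn_bool.2.1 _ hR) p 0
    (fun n => by rw [hp]; exact hcon n)
  rw [hp] at hN2
  exact hN2 (h N hN)

/-- the codes `tr i (a i) j` with standard `i`, `j` -/
def C (a : ℕ → M) : Set M := {z | ∃ i j : ℕ, z = tr (i : M) (a i) (j : M)}

theorem C_G (hc : Compat M) (a : ℕ → M) (m : ℕ) : {z | z ∈ C a ∧ G (m : M) z}.Finite := by
  have hsub : {z | z ∈ C a ∧ G (m : M) z} ⊆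
      ⋃ i ∈ Finset.range (m + 1), ⋃ j ∈ Finset.range (m + 1), {tr (i : M) (a i) (j : M)} := by
    rintro z ⟨⟨i, j, h1⟩, i', j', x, h2, h3, h4⟩
    obtain ⟨h5, _, h6⟩ := tr_inj hc (h1.symm.trans h4)
    simp only [Set.mem_iUnion, Finset.mem_range, Set.mem_singleton_iff]
    refine ⟨i, ?_, j, ?_, h1⟩
    · rw [← h5] at h2
      exact Nat.lt_succ_of_le (Nat.cast_le.1 h2)
    · rw [← h6] at h3
      exact Nat.lt_succ_of_le (Nat.cast_le.1 h3)
  refine Set.Finite.subset ?_ hsub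
  refine Set.Finite.biUnion (Finset.finite_toSet _) fun i _ => ?_
  exact Set.Finite.biUnion (Finset.finite_toSet _) fun j _ => Set.finite_singleton _

theorem C_sub_G (a : ℕ → M) (m : M) (hm : ∀ n : ℕ, (n : M) < m) (z : M) (hz : z ∈ C a) : G m z := by
  obtain ⟨i, j, rfl⟩ := hz
  exact ⟨i, j, a i, (hm i).le, (hm j).le, rfl⟩

theorem def_G (hc : Compat M) (m : M) : (Set.univ : Set M).Definable₁ LA {z | G m z} := by
  have := dfn_def (α := Fin 1) _ (dfn_G (M := M) hc)
    (fun k => if k = 0 then Sum.inl m else Sum.inr 0)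
  exact this

/-- the set of all `m` such that every tuple of `D` has an entry outside `S` in `G m` -/
theorem def_bad (hc : Compat M) {n : ℕ} (D : Set (Fin n → M))
    (hD : (Set.univ : Set M).Definable LA D) (S : Finset (Fin n)) :
    (Set.univ : Set M).Definable₁ LA {m | ∀ τ ∈ D, ∃ l, l ∉ S ∧ G m (τ l)} := by
  classical
  unfold Set.Definable₁
  have h1 : (Set.univ : Set M).Definable LA {g : Fin 1 ⊕ Fin n → M | g ∘ Sum.inr ∈ D} :=
    Set.Definable.preimage_comp Sum.inr hD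
  have h2 : ∀ l : Fin n, (Set.univ : Set M).Definable LA
      {g : Fin 1 ⊕ Fin n → M | l ∉ S ∧ G (g (Sum.inl 0)) (g (Sum.inr l))} := by
    intro l
    by_cases hl : l ∈ S
    · have : {g : Fin 1 ⊕ Fin n → M | l ∉ S ∧ G (g (Sum.inl 0)) (g (Sum.inr l))} = ∅ := by
        ext g; simp [hl]
      rw [this]
      exact Set.definable_empty
    · have h3 := dfn_def (α := Fin 1 ⊕ Fin n) _ (dfn_G (M := M) hc)
        (fun k => if k = 0 then Sum.inr (Sum.inl 0) else Sum.inr (Sum.inr l))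
      convert h3 using 1
      ext g
      simp only [Set.mem_ofPred_eq, hl, not_false_iff, true_and]
      simp
  have h3 := Set.definable_iUnion_of_finite h2
  have h4 := h1.compl.union h3
  have h5 := Set.Definable.forall_of_finite h4
  convert h5 using 1
  ext v
  simp only [Set.mem_ofPred_eq, Set.mem_union, Set.mem_compl_iff, Set.mem_iUnion]
  refine forall_congr' fun τ => ?_
  have e1 : (Sum.elim v τ) ∘ Sum.inr = τ := rfl
  rw [e1]
  exact imp_iff_not_or

theorem key_aux [Countable M] (hM : NPA M) (a : ℕ → M) (n : ℕ) :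
    ∀ (k : ℕ) (S : Finset (Fin n)), (Sᶜ).card = k → ∀ D : Set (Fin n → M),
      (Set.univ : Set M).Definable LA D → (∃ B ⊆ D, Spread B) →
      (∀ τ ∈ D, ∀ l ∈ S, τ l ∉ C a) → ∃ τ ∈ D, ∀ l, τ l ∉ C a := by
  classical
  intro k
  induction k using Nat.strong_induction_on with
  | _ k ih =>
    intro S hS D hD hB hC
    by_contra hcon
    push Not at hcon
    obtain ⟨B, hBD, hB⟩ := hB
    have hbad : ∀ m : M, (∀ n : ℕ, (n : M) < m) → m ∈ {m | ∀ τ ∈ D, ∃ l, l ∉ S ∧ G m (τ l)} := by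
      intro m hm τ hτ
      obtain ⟨l, hl⟩ := hcon τ hτ
      exact ⟨l, fun h => hC τ hτ l h hl, C_sub_G a m hm _ hl⟩
    obtain ⟨m, hm⟩ := under hM _ (def_bad hM.compat D hD S) hbad
    set F := {z | z ∈ C a ∧ G (m : M) z} with hF
    have hFf : F.Finite := C_G hM.compat a m
    have hB' := spread_avoid B hB F hFf
    have hcov : {τ ∈ B | ∀ l, τ l ∉ F} ⊆
        ⋃ l : Fin n, {τ | (τ ∈ B ∧ ∀ l, τ l ∉ F) ∧ l ∉ S ∧ G (m : M) (τ l)} := by
      rintro τ ⟨h1, h2⟩
      obtain ⟨l, h3, h4⟩ := hm τ (hBD h1)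
      exact Set.mem_iUnion.2 ⟨l, ⟨h1, h2⟩, h3, h4⟩
    obtain ⟨l, hl⟩ : ∃ l : Fin n,
        {τ | (τ ∈ B ∧ ∀ l, τ l ∉ F) ∧ l ∉ S ∧ G (m : M) (τ l)}.Infinite := by
      by_contra hno
      push Not at hno
      exact hB'.1 (Set.Finite.subset (Set.finite_iUnion fun l => by
        have := hno l
        simpa using this) hcov)
    have hlS : l ∉ S := by
      obtain ⟨τ, hτ⟩ := hl.nonempty
      exact hτ.2.1
    let D' : Set (Fin n → M) := {τ | τ ∈ D ∧ τ l ∉ F ∧ G (m : M) (τ l)}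
    have hD' : (Set.univ : Set M).Definable LA D' := by
      have h1 := def_coord (n := n) _ (def_finite (M := M) F hFf) l
      have h2 := def_coord (n := n) _ (def_G hM.compat (m : M)) l
      exact hD.inter (h1.compl.inter h2)
    have hcard : ((insert l S)ᶜ).card < k := by
      rw [← hS]
      refine Finset.card_lt_card ?_
      refine Finset.compl_ssubset_compl.2 ?_
      exact Finset.ssubset_insert hlS
    obtain ⟨τ, h1, h2⟩ := ih _ hcard (insert l S) rfl D' hD'
      ⟨_, fun τ hτ => (⟨hBD hτ.1.1, hτ.1.2 l, hτ.2.2⟩ : τ ∈ D'),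
        spread_mono B _ hB (fun τ hτ => hτ.1.1) hl⟩ (by
        intro τ hτ l' hl'
        rcases Finset.mem_insert.1 hl' with rfl | h
        · intro hc
          exact hτ.2.1 ⟨hc, hτ.2.2⟩
        · exact hC τ hτ.1 l' h)
    obtain ⟨l', hl'⟩ := hcon τ h1.1
    exact h2 l' hl'

/-- every definable set with a spread subset has an injective tuple which avoids the codes and a
given finite set -/
theorem key [Countable M] (hM : NPA M) (a : ℕ → M) (n : ℕ) (D : Set (Fin n → M))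
    (hD : (Set.univ : Set M).Definable LA D) (hB : ∃ B ⊆ D, Spread B) (F : Set M) (hF : F.Finite) :
    ∃ τ ∈ D, Function.Injective τ ∧ ∀ l, τ l ∉ C a ∧ τ l ∉ F := by
  obtain ⟨B, hBD, hB⟩ := hB
  let D' : Set (Fin n → M) := {τ | τ ∈ D ∧ Function.Injective τ ∧ ∀ l, τ l ∉ F}
  have hD' : (Set.univ : Set M).Definable LA D' := by
    have h2 := Set.definable_iInter_of_finite
      (fun l : Fin n => (def_coord (n := n) _ (def_finite (M := M) F hF) l).compl)
    have h3 := hD.inter ((def_inj (M := M) (n := n)).inter h2)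
    convert h3 using 1
    ext τ
    simp only [D', Set.mem_ofPred_eq, Set.mem_inter_iff, Set.mem_iInter, Set.mem_compl_iff]
  obtain ⟨τ, h1, h2⟩ := key_aux hM a n _ ∅ rfl D' hD'
    ⟨_, fun τ hτ => (⟨hBD hτ.1, hB.2.1 τ hτ.1, hτ.2⟩ : τ ∈ D'), spread_avoid B hB F hF⟩
    (fun τ _ l hl => absurd hl (by simp))
  exact ⟨τ, h1.1, h1.2.1, fun l => ⟨h2 l, h1.2.2 l⟩⟩

end Pool.Agent.V11253.CPG
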