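import Pool.Agent.V11253.CPG.Gen
import Mathlib.Data.Nat.Pairing

set_option autoImplicit false
set_option linter.unusedSectionVars false

open FirstOrder FirstOrder.Language Pool.Agent.Helper227.EN Pool.Agent.H623R3.JC

namespace Pool.Agent.V11253.CPG

section delta
variable {M : Type} [CommSemiring M] [LinearOrder M] [IsStrictOrderedRing M]
  [CanonicallyOrderedAdd M] [LA.Structure M]

/-- there is an interval of length `k` outside `X` -/
def Gap (X : Set M) (k : M) : Prop := ∃ c, ∀ x, x < k → c + x ∉ X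

theorem gap_std (hc : Compat M) (X : Set M) (hX : StronglyCPGeneric M X) (k : ℕ) :
    Gap X (k : M) := by
  rcases Nat.eq_zero_or_pos k with rfl | hk
  · exact ⟨0, fun x hx => by simp at hx⟩
  obtain ⟨h1, h2, h3, h4, h5, h6, h7⟩ := trm_ops (M := M) hc
  have T : ∀ k, Trm (fun x : ℕ → M => x k) := h1
  let D : Set (Fin k → M) := {τ | ∀ i : Fin k, τ i = τ ⟨0, hk⟩ + ((i : ℕ) : M)}
  have hD : (Set.univ : Set M).Definable LA D := by
    have g1 : ∀ i : Fin k, (Set.univ : Set M).Definable LA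
        {τ : Fin k → M | τ i = τ ⟨0, hk⟩ + ((i : ℕ) : M)} := by
      intro i
      have := dfn_def (α := Fin k) (fun x : ℕ → M => x 0 = x 1 + ((i : ℕ) : M))
        (h5 _ _ (T 0) (h3 _ _ (T 1) (h2 i)))
        (fun j => if j = 0 then Sum.inr i else Sum.inr ⟨0, hk⟩)
      exact this
    have g2 := Set.definable_iInter_of_finite g1
    convert g2 using 1
    ext τ
    simp [D]
  have hB : ∃ B ⊆ D, Spread B := by
    refine ⟨Set.range (fun (j : ℕ) (i : Fin k) => ((j * k + i : ℕ) : M)), ?_, ?_, ?_, ?_⟩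
    · rintro _ ⟨j, rfl⟩ i
      push_cast
      ring
    · refine Set.infinite_range_of_injective fun j j' h => ?_
      have := congrFun h ⟨0, hk⟩
      simp only [add_zero] at this
      exact Nat.eq_of_mul_eq_mul_right hk (Nat.cast_injective this)
    · rintro _ ⟨j, rfl⟩ i i' h
      have := Nat.cast_injective (R := M) h
      exact Fin.ext (by omega)
    · rintro _ ⟨j, rfl⟩ _ ⟨j', rfl⟩ hne i i' h
      have h1 := Nat.cast_injective (R := M) h
      apply hne
      have h2 : j = j' := by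
        have e1 : (j * k + i) / k = j := by
          rw [mul_comm, Nat.mul_add_div hk, Nat.div_eq_of_lt i.2, add_zero]
        have e2 : (j' * k + i') / k = j' := by
          rw [mul_comm, Nat.mul_add_div hk, Nat.div_eq_of_lt i'.2, add_zero]
        rw [← e1, h1, e2]
      rw [h2]
  obtain ⟨b, hb, hb2⟩ := hX k hk D hD hB ∅
  refine ⟨b ⟨0, hk⟩, fun x hx => ?_⟩
  obtain ⟨m, hm, rfl⟩ := std_below hc k x hx.le
  have hm' : m < k := by
    rcases lt_or_eq_of_le hm with h | h
    · exact h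
    · rw [h] at hx; exact absurd hx (lt_irrefl _)
  have := hb ⟨m, hm'⟩
  simp only [] at this
  rw [← this]
  intro h
  exact absurd ((hb2 _).1 h) (by simp)

theorem gap_nonstd (hc : Compat M) (X : Set M) (hX : StronglyCPGeneric M X) (k : M)
    (hk : ∀ n : ℕ, (n : M) < k) : ¬ Gap X k := by
  rintro ⟨c, hc'⟩
  obtain ⟨h1, h2, h3, h4, h5, h6, h7⟩ := trm_ops (M := M) hc
  obtain ⟨b1, b2, b3, b4, b5, b6⟩ := dfn_bool (M := M)
  have T : ∀ k, Trm (fun x : ℕ → M => x k) := h1
  let D : Set (Fin 1 → M) := {τ | c ≤ τ 0 ∧ τ 0 < c + k}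
  have hD : (Set.univ : Set M).Definable LA D := by
    have := dfn_def (α := Fin 1) (fun x : ℕ → M => x 1 ≤ x 0 ∧ x 0 < x 1 + x 2)
      (b3 _ _ (h7 _ _ (T 1) (T 0)) (h6 _ _ (T 0) (h3 _ _ (T 1) (T 2))))
      (fun j => if j = 0 then Sum.inr 0 else if j = 1 then Sum.inl c else Sum.inl k)
    exact this
  have hB : ∃ B ⊆ D, Spread B := by
    refine ⟨Set.range (fun (j : ℕ) (_ : Fin 1) => c + (j : M)), ?_, ?_, ?_, ?_⟩
    · rintro _ ⟨j, rfl⟩
      exact ⟨self_le_add_right _ _, add_lt_add_right (hk j) c⟩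
    · refine Set.infinite_range_of_injective fun j j' h => ?_
      exact Nat.cast_injective (add_left_cancel (congrFun h 0))
    · rintro _ ⟨j, rfl⟩ i i' h
      exact Subsingleton.elim _ _
    · rintro _ ⟨j, rfl⟩ _ ⟨j', rfl⟩ hne i i' h
      exact hne (by rw [Nat.cast_injective (add_left_cancel h)])
  obtain ⟨b, hb, hb2⟩ := hX 1 le_rfl D hD hB Set.univ
  obtain ⟨x, hx⟩ := exists_add_of_le hb.1
  have h8 := (hb2 0).2 (Set.mem_univ _)
  rw [hx] at h8
  refine hc' x ?_ h8
  have := hb.2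
  rw [hx] at this
  exact lt_of_add_lt_add_left this

theorem std_or (hc : Compat M) (k : M) : (∃ n : ℕ, k = (n : M)) ∨ ∀ n : ℕ, (n : M) < k := by
  by_cases h : ∀ n : ℕ, (n : M) < k
  · exact Or.inr h
  · push Not at h
    obtain ⟨n, hn⟩ := h
    obtain ⟨m, _, hm⟩ := std_below hc n k hn
    exact Or.inl ⟨m, hm⟩

theorem gap_iff (hc : Compat M) (X : Set M) (hX : StronglyCPGeneric M X) (k : M) :
    Gap X k ↔ ∃ n : ℕ, k = (n : M) := by
  rcases std_or hc k with h | h
  · refine ⟨fun _ => h, fun _ => ?_⟩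
    obtain ⟨n, rfl⟩ := h
    exact gap_std hc X hX n
  · refine ⟨fun h2 => absurd h2 (gap_nonstd hc X hX k h), ?_⟩
    rintro ⟨n, rfl⟩
    exact absurd (h n) (lt_irrefl _)

end delta

section transfer
variable {M N : Type} [LU.Structure M] [LU.Structure N]

/-- the same formula defines `R` in `M` and `S` in `N` -/
def T2 (R : (ℕ → M) → Prop) (S : (ℕ → N) → Prop) : Prop :=
  ∃ φ : LU.Formula ℕ, (∀ x, φ.Realize x ↔ R x) ∧ ∀ y, φ.Realize y ↔ S y

/-- the same term gives `f` in `M` and `g` in `N` -/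
def E2 (f : (ℕ → M) → M) (g : (ℕ → N) → N) : Prop :=
  ∃ t : LU.Term ℕ, (∀ x, t.realize x = f x) ∧ ∀ y, t.realize y = g y

theorem T2.imp {R R' : (ℕ → M) → Prop} {S S' : (ℕ → N) → Prop} (h : T2 R S) (h' : T2 R' S') :
    T2 (fun x => R x → R' x) (fun x => S x → S' x) := by
  obtain ⟨φ, h1, h2⟩ := h
  obtain ⟨ψ, h3, h4⟩ := h'
  exact ⟨φ.imp ψ, fun x => by rw [Formula.realize_imp, h1, h3],
    fun x => by rw [Formula.realize_imp, h2, h4]⟩

theorem T2.not {R : (ℕ → M) → Prop} {S : (ℕ → N) → Prop} (h : T2 R S) :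
    T2 (fun x => ¬ R x) (fun x => ¬ S x) := by
  obtain ⟨φ, h1, h2⟩ := h
  exact ⟨φ.not, fun x => by rw [Formula.realize_not, h1],
    fun x => by rw [Formula.realize_not, h2]⟩

theorem T2.and {R R' : (ℕ → M) → Prop} {S S' : (ℕ → N) → Prop} (h : T2 R S) (h' : T2 R' S') :
    T2 (fun x => R x ∧ R' x) (fun x => S x ∧ S' x) := by
  obtain ⟨φ, h1, h2⟩ := h
  obtain ⟨ψ, h3, h4⟩ := h'
  exact ⟨φ ⊓ ψ, fun x => by rw [Formula.realize_inf, h1, h3],
    fun x => by rw [Formula.realize_inf, h2, h4]⟩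

theorem T2.ex (Q : (ℕ → M) → M → Prop) (Q' : (ℕ → N) → N → Prop) (k : ℕ)
    (hk : ∀ x y v, Q (Function.update x k v) y ↔ Q x y)
    (hk' : ∀ x y v, Q' (Function.update x k v) y ↔ Q' x y)
    (h : T2 (fun x => Q x (x k)) (fun x => Q' x (x k))) :
    T2 (fun x => ∃ y, Q x y) (fun x => ∃ y, Q' x y) := by
  classical
  obtain ⟨φ, h1, h2⟩ := h
  let g : ℕ → ℕ ⊕ Unit := fun i => if i = k then Sum.inr () else Sum.inl i
  have key : ∀ (K : Type) (x : ℕ → K) (i : Unit → K),
      (Sum.elim x i) ∘ g = Function.update x k (i ()) := by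
    intro K x i
    funext j
    simp only [Function.comp_apply, g]
    by_cases hj : j = k
    · subst hj; simp
    · simp [hj]
  refine ⟨Formula.iExs Unit (φ.relabel g), fun x => ?_, fun x => ?_⟩
  · rw [Formula.realize_iExs]
    constructor
    · rintro ⟨i, hi⟩
      rw [Formula.realize_relabel, key, h1] at hi
      refine ⟨i (), ?_⟩
      rw [Function.update_self, hk] at hi
      exact hi
    · rintro ⟨y, hy⟩
      refine ⟨fun _ => y, ?_⟩
      rw [Formula.realize_relabel, key, h1]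
      show Q (Function.update x k y) (Function.update x k y k)
      rw [Function.update_self, hk]
      exact hy
  · rw [Formula.realize_iExs]
    constructor
    · rintro ⟨i, hi⟩
      rw [Formula.realize_relabel, key, h2] at hi
      refine ⟨i (), ?_⟩
      rw [Function.update_self, hk'] at hi
      exact hi
    · rintro ⟨y, hy⟩
      refine ⟨fun _ => y, ?_⟩
      rw [Formula.realize_relabel, key, h2]
      show Q' (Function.update x k y) (Function.update x k y k)
      rw [Function.update_self, hk']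
      exact hy

theorem T2.all (Q : (ℕ → M) → M → Prop) (Q' : (ℕ → N) → N → Prop) (k : ℕ)
    (hk : ∀ x y v, Q (Function.update x k v) y ↔ Q x y)
    (hk' : ∀ x y v, Q' (Function.update x k v) y ↔ Q' x y)
    (h : T2 (fun x => Q x (x k)) (fun x => Q' x (x k))) :
    T2 (fun x => ∀ y, Q x y) (fun x => ∀ y, Q' x y) := by
  have h1 := (T2.ex (fun x y => ¬ Q x y) (fun x y => ¬ Q' x y) k
    (fun x y v => not_congr (hk x y v)) (fun x y v => not_congr (hk' x y v)) h.not).not
  simpa only [not_exists, not_not] using h1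

end transfer

section transfer2
variable {M N : Type} [CommSemiring M] [LinearOrder M] [LA.Structure M]
  [CommSemiring N] [LinearOrder N] [LA.Structure N]

theorem ops2 (hM : Compat M) (hN : Compat N) (X : Set M) (Y : Set N) :
    letI := expand M X
    letI := expand N Y
    (∀ k, E2 (fun x : ℕ → M => x k) (fun x : ℕ → N => x k)) ∧
    (∀ (f g : (ℕ → M) → M) (f' g' : (ℕ → N) → N), E2 f f' → E2 g g' →
      E2 (fun x => f x + g x) (fun x => f' x + g' x)) ∧
    (∀ (f g : (ℕ → M) → M) (f' g' : (ℕ → N) → N), E2 f f' → E2 g g' →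
      E2 (fun x => f x * g x) (fun x => f' x * g' x)) ∧
    (∀ (f g : (ℕ → M) → M) (f' g' : (ℕ → N) → N), E2 f f' → E2 g g' →
      T2 (fun x => f x = g x) (fun x => f' x = g' x)) ∧
    (∀ (f g : (ℕ → M) → M) (f' g' : (ℕ → N) → N), E2 f f' → E2 g g' →
      T2 (fun x => f x < g x) (fun x => f' x < g' x)) ∧
    (∀ (f : (ℕ → M) → M) (f' : (ℕ → N) → N), E2 f f' →
      T2 (fun x => f x ∈ X) (fun x => f' x ∈ Y)) := by
  let iM := expand M X
  let iN := expand N Y
  refine ⟨fun k => ⟨Term.var k, fun x => rfl, fun x => rfl⟩, ?_, ?_, ?_, ?_, ?_⟩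
  · rintro f g f' g' ⟨s, h1, h2⟩ ⟨t, h3, h4⟩
    refine ⟨Functions.apply₂ (L := LU) AF.add s t, fun x => ?_, fun x => ?_⟩
    · refine (Term.realize_functions_apply₂ (L := LU) (f := (AF.add : LU.Functions 2))).trans ?_
      rw [h1, h3]
      exact hM.add _ _
    · refine (Term.realize_functions_apply₂ (L := LU) (f := (AF.add : LU.Functions 2))).trans ?_
      rw [h2, h4]
      exact hN.add _ _
  · rintro f g f' g' ⟨s, h1, h2⟩ ⟨t, h3, h4⟩
    refine ⟨Functions.apply₂ (L := LU) AF.mul s t, fun x => ?_, fun x => ?_⟩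
    · refine (Term.realize_functions_apply₂ (L := LU) (f := (AF.mul : LU.Functions 2))).trans ?_
      rw [h1, h3]
      exact hM.mul _ _
    · refine (Term.realize_functions_apply₂ (L := LU) (f := (AF.mul : LU.Functions 2))).trans ?_
      rw [h2, h4]
      exact hN.mul _ _
  · rintro f g f' g' ⟨s, h1, h2⟩ ⟨t, h3, h4⟩
    refine ⟨Term.equal s t, fun x => ?_, fun x => ?_⟩
    · rw [Formula.realize_equal, h1, h3]
    · rw [Formula.realize_equal, h2, h4]
  · rintro f g f' g' ⟨s, h1, h2⟩ ⟨t, h3, h4⟩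
    refine ⟨Relations.formula₂ (L := LU) UR.lt s t, fun x => ?_, fun x => ?_⟩
    · refine (Formula.realize_rel₂ (L := LU) (R := (UR.lt : LU.Relations 2))).trans ?_
      rw [h1, h3]
      exact hM.lt _ _
    · refine (Formula.realize_rel₂ (L := LU) (R := (UR.lt : LU.Relations 2))).trans ?_
      rw [h2, h4]
      exact hN.lt _ _
  · rintro f f' ⟨s, h1, h2⟩
    refine ⟨Relations.formula₁ (L := LU) UR.U s, fun x => ?_, fun x => ?_⟩
    · refine (Formula.realize_rel₁ (L := LU) (R := (UR.U : LU.Relations 1))).trans ?_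
      rw [h1]
      exact Iff.rfl
    · refine (Formula.realize_rel₁ (L := LU) (R := (UR.U : LU.Relations 1))).trans ?_
      rw [h2]
      exact Iff.rfl

theorem gap2 (hM : Compat M) (hN : Compat N) (X : Set M) (Y : Set N) (k : ℕ) :
    letI := expand M X
    letI := expand N Y
    T2 (fun x : ℕ → M => Gap X (x k)) (fun x : ℕ → N => Gap Y (x k)) := by
  obtain ⟨o1, o2, o3, o4, o5, o6⟩ := ops2 hM hN X Y
  let iM := expand M X
  let iN := expand N Y
  unfold Gap
  refine T2.ex (fun x c => ∀ y, y < x k → c + y ∉ X) (fun x c => ∀ y, y < x k → c + y ∉ Y) (k + 1)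
    (fun x y v => by simp) (fun x y v => by simp) ?_
  refine T2.all (fun x y => y < x k → x (k + 1) + y ∉ X) (fun x y => y < x k → x (k + 1) + y ∉ Y)
    (k + 2) (fun x y v => by simp) (fun x y v => by simp) ?_
  exact (o5 _ _ _ _ (o1 _) (o1 _)).imp (o6 _ _ (o2 _ _ _ _ (o1 _) (o1 _))).not

/-- the property which codes the enumeration -/
def Rr (X : Set M) (i x : M) : Prop := ∀ j, Gap X j → tr i x j ∈ X

theorem rr2 (hM : Compat M) (hN : Compat N) (X : Set M) (Y : Set N) (k l : ℕ) (hk : k < 10)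
    (hl : l < 10) :
    letI := expand M X
    letI := expand N Y
    T2 (fun x : ℕ → M => Rr X (x k) (x l)) (fun x : ℕ → N => Rr Y (x k) (x l)) := by
  obtain ⟨o1, o2, o3, o4, o5, o6⟩ := ops2 hM hN X Y
  have hg := gap2 hM hN X Y 10
  let iM := expand M X
  let iN := expand N Y
  have k1 : k ≠ 10 := by omega
  have k2 : l ≠ 10 := by omega
  unfold Rr tr pr
  refine T2.all (fun x j => Gap X j → _ ∈ X) (fun x j => Gap Y j → _ ∈ Y) 10
    (fun x y v => by simp [k1, k2]) (fun x y v => by simp [k1, k2]) ?_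
  refine hg.imp (o6 _ _ ?_)
  have e1 : E2 (fun x : ℕ → M => (x k + x 10) * (x k + x 10) + x k)
      (fun x : ℕ → N => (x k + x 10) * (x k + x 10) + x k) :=
    o2 _ _ _ _ (o3 _ _ _ _ (o2 _ _ _ _ (o1 k) (o1 10)) (o2 _ _ _ _ (o1 k) (o1 10))) (o1 k)
  exact o2 _ _ _ _ (o3 _ _ _ _ (o2 _ _ _ _ e1 (o1 l)) (o2 _ _ _ _ e1 (o1 l))) e1

end transfer2

section final
variable {M N : Type} [CommSemiring M] [LinearOrder M] [IsStrictOrderedRing M]
  [CanonicallyOrderedAdd M] [LA.Structure M] [CommSemiring N] [LinearOrder N]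
  [IsStrictOrderedRing N] [CanonicallyOrderedAdd N] [LA.Structure N]

theorem no_ext (hM : Compat M) (hN : Compat N) (X : Set M) (Y : Set N)
    (hX : StronglyCPGeneric M X) (hY : StronglyCPGeneric N Y)
    (f : @ElementaryEmbedding LU M N (expand M X) (expand N Y))
    (h : (∀ k : M, ∃ n : ℕ, k = (n : M)) ∨ ∃ a : ℕ → M, Function.Surjective a ∧ C a ⊆ X ∧
      ∀ (i : ℕ) (x : M), x ≠ a i → ∃ j : ℕ, tr (i : M) x (j : M) ∉ X) :
    Function.Surjective f := by
  let iM := expand M X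
  let iN := expand N Y
  have htr : ∀ (R : (ℕ → M) → Prop) (S : (ℕ → N) → Prop), T2 R S → ∀ x, S (f ∘ x) ↔ R x := by
    rintro R S ⟨φ, h1, h2⟩ x
    rw [← h1, ← h2]
    exact f.map_formula φ x
  have hf0 : f (0 : M) = 0 := by
    have h1 := f.map_fun (AF.zero : LU.Functions 0) ![]
    have h2 : (Structure.funMap (L := LU) (AF.zero : LU.Functions 0) ![] : M) = 0 := hM.zero
    rw [h2] at h1
    rw [h1, ← hN.zero]
    show Structure.funMap (L := LA) AF.zero _ = Structure.funMap (L := LA) AF.zero _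
    congr 1
    exact Subsingleton.elim _ _
  have hf1 : f (1 : M) = 1 := by
    have h1 := f.map_fun (AF.one : LU.Functions 0) ![]
    have h2 : (Structure.funMap (L := LU) (AF.one : LU.Functions 0) ![] : M) = 1 := hM.one
    rw [h2] at h1
    rw [h1, ← hN.one]
    show Structure.funMap (L := LA) AF.one _ = Structure.funMap (L := LA) AF.one _
    congr 1
    exact Subsingleton.elim _ _
  have hfa : ∀ x y : M, f (x + y) = f x + f y := by
    intro x y
    have h1 := f.map_fun (AF.add : LU.Functions 2) ![x, y]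
    have h2 : (Structure.funMap (L := LU) (AF.add : LU.Functions 2) ![x, y] : M) = x + y :=
      hM.add x y
    rw [h2] at h1
    rw [h1, ← hN.add]
    show Structure.funMap (L := LA) AF.add _ = Structure.funMap (L := LA) AF.add _
    congr 1
    funext i
    fin_cases i <;> rfl
  have hfn : ∀ n : ℕ, f (n : M) = (n : N) := by
    intro n
    induction n with
    | zero => simpa using hf0
    | succ n ih => rw [Nat.cast_succ, Nat.cast_succ, hfa, ih, hf1]
  intro y
  rcases h with h | ⟨a, ha, hC, hne⟩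
  · have h1 : T2 (fun _ : ℕ → M => ∀ k, Gap X k) (fun _ : ℕ → N => ∀ k, Gap Y k) :=
      T2.all (fun _ k => Gap X k) (fun _ k => Gap Y k) 0 (fun _ _ _ => Iff.rfl)
        (fun _ _ _ => Iff.rfl) (gap2 hM hN X Y 0)
    have h2 := (htr _ _ h1 (fun _ => 0)).2 (fun k => (gap_iff hM X hX k).2 (h k))
    obtain ⟨n, rfl⟩ := (gap_iff hN Y hY y).1 (h2 y)
    exact ⟨n, hfn n⟩
  · -- every element of `M` is coded
    have hR : ∀ (n : ℕ) (x : M), Rr X (n : M) x ↔ x = a n := by
      intro n x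
      constructor
      · intro h1
        by_contra hx
        obtain ⟨j, hj⟩ := hne n x hx
        exact hj (h1 j ((gap_iff hM X hX _).2 ⟨j, rfl⟩))
      · rintro rfl j hj
        obtain ⟨m, rfl⟩ := (gap_iff hM X hX j).1 hj
        exact hC ⟨n, m, rfl⟩
    have h1 : T2 (fun _ : ℕ → M => ∀ x, ∃ i, Gap X i ∧ Rr X i x)
        (fun _ : ℕ → N => ∀ x, ∃ i, Gap Y i ∧ Rr Y i x) := by
      refine T2.all (fun _ x => ∃ i, Gap X i ∧ Rr X i x) (fun _ x => ∃ i, Gap Y i ∧ Rr Y i x) 0
        (fun _ _ _ => Iff.rfl) (fun _ _ _ => Iff.rfl) ?_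
      refine T2.ex (fun v i => Gap X i ∧ Rr X i (v 0)) (fun v i => Gap Y i ∧ Rr Y i (v 0)) 1
        (fun x y v => by simp) (fun x y v => by simp) ?_
      exact (gap2 hM hN X Y 1).and (rr2 hM hN X Y 1 0 (by norm_num) (by norm_num))
    have h2 := (htr _ _ h1 (fun _ => 0)).2 (fun x => by
      obtain ⟨n, rfl⟩ := ha x
      exact ⟨n, (gap_iff hM X hX _).2 ⟨n, rfl⟩, (hR n _).2 rfl⟩)
    obtain ⟨i, h3, h4⟩ := h2 y
    obtain ⟨n, rfl⟩ := (gap_iff hN Y hY i).1 h3
    have h5 : T2 (fun v : ℕ → M => ∀ x, ∀ x', Rr X (v 0) x → Rr X (v 0) x' → x = x')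
        (fun v : ℕ → N => ∀ x, ∀ x', Rr Y (v 0) x → Rr Y (v 0) x' → x = x') := by
      refine T2.all (fun v x => ∀ x', Rr X (v 0) x → Rr X (v 0) x' → x = x')
        (fun v x => ∀ x', Rr Y (v 0) x → Rr Y (v 0) x' → x = x') 1
        (fun x y v => by simp) (fun x y v => by simp) ?_
      refine T2.all (fun v x' => Rr X (v 0) (v 1) → Rr X (v 0) x' → v 1 = x')
        (fun v x' => Rr Y (v 0) (v 1) → Rr Y (v 0) x' → v 1 = x') 2
        (fun x y v => by simp) (fun x y v => by simp) ?_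
      exact (rr2 hM hN X Y 0 1 (by norm_num) (by norm_num)).imp
        ((rr2 hM hN X Y 0 2 (by norm_num) (by norm_num)).imp
          ((ops2 hM hN X Y).2.2.2.1 _ _ _ _ ((ops2 hM hN X Y).1 1) ((ops2 hM hN X Y).1 2)))
    have h6 := (htr _ _ h5 (fun _ => (n : M))).2 (fun x x' h7 h8 =>
      ((hR n x).1 h7).trans ((hR n x').1 h8).symm)
    have h7 : T2 (fun v : ℕ → M => Rr X (v 0) (v 1)) (fun v : ℕ → N => Rr Y (v 0) (v 1)) :=
      rr2 hM hN X Y 0 1 (by norm_num) (by norm_num)
    have h8 := (htr _ _ h7 (fun k => if k = 0 then (n : M) else a n)).2 (by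
      show Rr X (n : M) (a n)
      exact (hR n _).2 rfl)
    simp only [Function.comp_apply, if_true] at h8 h6
    rw [hfn] at h8 h6
    refine ⟨a n, h6 (f (a n)) y ?_ h4⟩
    simpa using h8

end final

end Pool.Agent.V11253.CPG
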